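import Pool.Agent.Q45.SN.Stm

/-!
# A polynomial which degenerates to one with a double root has a transposition in its Galois group
(helper149, job SWP of project SN of helper45)
-/

set_option autoImplicit false
set_option linter.all false

open Polynomial
open scoped Classical

namespace Pool.Agent.Q149.SN.Swp

open Pool.Agent.Q45.SN

section split

variable {κ : Type} [Field κ]

/-- Hensel's lemma for power series -/
theorem hensel (f : (PowerSeries κ)[X]) (hf : f.Monic) (a : κ)
    (h0 : (f.map PowerSeries.constantCoeff).eval a = 0)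
    (h1 : (derivative (f.map PowerSeries.constantCoeff)).eval a ≠ 0) :
    ∃ α : PowerSeries κ, f.eval α = 0 ∧ PowerSeries.constantCoeff α = a := by
  have e0 : PowerSeries.constantCoeff (f.eval (PowerSeries.C a)) = 0 := by
    rw [← h0, ← Polynomial.eval_map_apply, PowerSeries.constantCoeff_C]
  have e1 : PowerSeries.constantCoeff ((derivative f).eval (PowerSeries.C a)) ≠ 0 := by
    rw [← Polynomial.eval_map_apply, PowerSeries.constantCoeff_C, ← Polynomial.derivative_map]
    exact h1
  obtain ⟨α, hα, hα'⟩ := HenselianRing.is_henselian (I := Ideal.span {(PowerSeries.X : PowerSeries κ)})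
    f hf (PowerSeries.C a) (by rw [Ideal.mem_span_singleton, PowerSeries.X_dvd_iff]; exact e0)
    (((PowerSeries.isUnit_iff_constantCoeff.2 (isUnit_iff_ne_zero.2 e1))).map _)
  refine ⟨α, hα, ?_⟩
  rw [Ideal.mem_span_singleton, PowerSeries.X_dvd_iff, map_sub, PowerSeries.constantCoeff_C,
    sub_eq_zero] at hα'
  exact hα'

theorem split1 [IsAlgClosed κ] (e : (PowerSeries κ)[X]) (hm : e.Monic) (t : κ) (g : κ[X])
    (h : e.map PowerSeries.constantCoeff = (X - C t) ^ 2 * g) (hg : g.Separable) (hgt : g.eval t ≠ 0)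
    (h1 : PowerSeries.coeff 1 (e.eval (PowerSeries.C t)) ≠ 0) :
    ∃ (s : Finset (PowerSeries κ)) (b c : PowerSeries κ),
      e = (X ^ 2 + C b * X + C c) * ∏ y ∈ s, (X - C y) ∧ ∀ r, r ^ 2 + b * r + c ≠ 0 := by
  have hgm : g.Monic := by
    have h2 := hm.map (PowerSeries.constantCoeff (R := κ))
    rw [h] at h2
    exact ((monic_X_sub_C t).pow 2).of_mul_monic_left h2
  have key : ∀ ρ ∈ g.roots.toFinset, ∃ α : PowerSeries κ, e.eval α = 0 ∧ PowerSeries.constantCoeff α = ρ := by
    intro ρ hρ
    rw [Multiset.mem_toFinset, mem_roots hgm.ne_zero] at hρ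
    have hρ0 : g.eval ρ = 0 := hρ
    apply hensel e hm ρ
    · rw [h, eval_mul, hρ0, mul_zero]
    · have hne : ρ ≠ t := by
        rintro rfl
        exact hgt hρ0
      have h2 : (derivative g).eval ρ ≠ 0 := by
        obtain ⟨a, b, hab⟩ := hg
        intro h0
        have h3 := congrArg (eval ρ) hab
        rw [eval_add, eval_mul, eval_mul, hρ0, h0, mul_zero, mul_zero, add_zero, eval_one] at h3
        exact zero_ne_one h3
      rw [h, derivative_mul, eval_add, eval_mul, eval_mul, hρ0, mul_zero, zero_add, eval_pow, eval_sub,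
        eval_X, eval_C]
      exact mul_ne_zero (pow_ne_zero 2 (sub_ne_zero.2 hne)) h2
  choose! y hy1 hy2 using key
  have hinj : Set.InjOn y g.roots.toFinset := by
    intro c hc c' hc' he
    rw [← hy2 c hc, ← hy2 c' hc', he]
  obtain ⟨P, hP⟩ : ∃ P : (PowerSeries κ)[X], P = ∏ c ∈ g.roots.toFinset, (X - C (y c)) := ⟨_, rfl⟩
  have hPm : P.Monic := by
    rw [hP]
    exact monic_prod_of_monic _ _ fun c _ => monic_X_sub_C _
  have hPd : P ∣ e := by
    have h3 : P = ((g.roots.toFinset.val.map y).map fun a => X - C a).prod := by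
      rw [Multiset.map_map, hP]
      rfl
    rw [h3, Multiset.prod_X_sub_C_dvd_iff_le_roots hm.ne_zero,
      Multiset.le_iff_subset (Multiset.Nodup.map_on hinj g.roots.toFinset.nodup)]
    intro a ha
    rw [Multiset.mem_map] at ha
    obtain ⟨c, hc, rfl⟩ := ha
    rw [mem_roots hm.ne_zero]
    exact hy1 c hc
  have hPg : P.map PowerSeries.constantCoeff = g := by
    have h3 : P.map PowerSeries.constantCoeff = ∏ c ∈ g.roots.toFinset, (X - C c) := by
      rw [hP, Polynomial.map_prod]
      refine Finset.prod_congr rfl fun c hc => ?_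
      rw [Polynomial.map_sub, map_X, map_C, hy2 c hc]
    rw [h3]
    have h4 : g = (g.roots.map fun a => X - C a).prod := by
      have h5 := (IsAlgClosed.splits g).eq_prod_roots
      rw [hgm.leadingCoeff, C_1, one_mul] at h5
      exact h5
    conv_rhs => rw [h4]
    have h6 : g.roots.toFinset.val = g.roots := by
      rw [Multiset.toFinset_val, Multiset.dedup_eq_self]
      exact nodup_roots hg
    rw [Finset.prod, h6]
  obtain ⟨Q, hQ⟩ := hPd
  have hQm : Q.Monic := by
    rw [hQ] at hm
    exact hPm.of_mul_monic_left hm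
  have hQt : Q.map PowerSeries.constantCoeff = (X - C t) ^ 2 := by
    have h3 : g * Q.map PowerSeries.constantCoeff = g * (X - C t) ^ 2 := by
      rw [mul_comm g ((X - C t) ^ 2), ← h, hQ, Polynomial.map_mul, hPg]
    exact mul_left_cancel₀ hgm.ne_zero h3
  have hQd : Q.natDegree = 2 := by
    rw [← hQm.natDegree_map (PowerSeries.constantCoeff (R := κ)), hQt, natDegree_pow, natDegree_X_sub_C]
  have hQe : Q = X ^ 2 + C (Q.coeff 1) * X + C (Q.coeff 0) := by
    have h3 : Q.coeff 2 = 1 := by
      rw [← hQd]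
      exact hQm
    conv_lhs => rw [Q.as_sum_range_C_mul_X_pow' (n := 3) (by omega)]
    rw [Finset.sum_range_succ, Finset.sum_range_succ, Finset.sum_range_one, h3]
    simp
    ring
  refine ⟨g.roots.toFinset.image y, Q.coeff 1, Q.coeff 0, ?_, ?_⟩
  · rw [← hQe, Finset.prod_image hinj, ← hP, hQ, mul_comm]
  · intro r hr
    have hQr : Q.eval r = 0 := by
      rw [hQe]
      simp only [eval_add, eval_mul, eval_pow, eval_X, eval_C]
      exact hr
    obtain ⟨R, hR⟩ := dvd_iff_isRoot.2 hQr
    have hRd : R.Monic := by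
      rw [hR] at hQm
      exact (monic_X_sub_C r).of_mul_monic_left hQm
    have hR1 : R.natDegree = 1 := by
      have h3 := hQd
      rw [hR, natDegree_mul (X_sub_C_ne_zero r) hRd.ne_zero, natDegree_X_sub_C] at h3
      omega
    have hR2 : R = X + C (R.coeff 0) := by
      have h3 : R.coeff 1 = 1 := by
        rw [← hR1]
        exact hRd
      conv_lhs => rw [R.as_sum_range_C_mul_X_pow' (n := 2) (by omega)]
      rw [Finset.sum_range_succ, Finset.sum_range_one, h3]
      simp
      ring
    have h3 : (X - C (PowerSeries.constantCoeff r)) * (X + C (PowerSeries.constantCoeff (R.coeff 0))) =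
        (X - C t) ^ 2 := by
      rw [← hQt, hR, Polynomial.map_mul, Polynomial.map_sub, map_X, map_C]
      conv_rhs => rw [hR2]
      rw [Polynomial.map_add, map_X, map_C]
    have h4 : PowerSeries.constantCoeff r = t := by
      have h5 := congrArg (eval (PowerSeries.constantCoeff r)) h3
      rw [eval_mul, eval_sub, eval_X, eval_C, sub_self, zero_mul, eval_pow, eval_sub, eval_X, eval_C] at h5
      exact sub_eq_zero.1 (pow_eq_zero_iff two_ne_zero |>.1 h5.symm)
    have h5 : t + PowerSeries.constantCoeff (R.coeff 0) = 0 := by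
      have h6 := congrArg (eval (-PowerSeries.constantCoeff (R.coeff 0))) h3
      rw [eval_mul, eval_add, eval_X, eval_C, neg_add_cancel, mul_zero, eval_pow, eval_sub, eval_X,
        eval_C] at h6
      have h7 := pow_eq_zero_iff two_ne_zero |>.1 h6.symm
      linear_combination -h7
    apply h1
    rw [hQ, hR, hR2]
    rw [eval_mul, eval_mul, eval_sub, eval_add, eval_X, eval_C, eval_C]
    rw [← mul_assoc]
    have h8 : PowerSeries.constantCoeff (PowerSeries.C t - r) = 0 := by
      rw [map_sub, PowerSeries.constantCoeff_C, h4, sub_self]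
    have h9 : PowerSeries.constantCoeff (PowerSeries.C t + R.coeff 0) = 0 := by
      rw [map_add, PowerSeries.constantCoeff_C, h5]
    obtain ⟨u, hu⟩ := PowerSeries.X_dvd_iff.2 h8
    obtain ⟨v, hv⟩ := PowerSeries.X_dvd_iff.2 h9
    rw [hu, hv]
    have h10 : eval (PowerSeries.C t) P * (PowerSeries.X * u) * (PowerSeries.X * v) =
        PowerSeries.X ^ 2 * (eval (PowerSeries.C t) P * u * v) := by ring
    rw [h10, PowerSeries.coeff_X_pow_mul', if_neg (by omega)]

end split

section swap

theorem irr_quad {M : Type} [Field M] {b c : M} (hr : ∀ r : M, r ^ 2 + b * r + c ≠ 0) :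
    (X ^ 2 + C b * X + C c : M[X]).Monic ∧ Irreducible (X ^ 2 + C b * X + C c : M[X]) := by
  have hd : (C b * X + C c : M[X]).degree < 2 := by
    refine lt_of_le_of_lt degree_linear_le ?_
    norm_num
  have hm : (X ^ 2 + C b * X + C c : M[X]).Monic := by
    rw [add_assoc]
    exact monic_X_pow_add hd
  have hdeg : (X ^ 2 + C b * X + C c : M[X]).natDegree = 2 := by
    rw [add_assoc, natDegree_add_eq_left_of_degree_lt, natDegree_X_pow]
    rw [degree_X_pow]
    exact hd
  refine ⟨hm, ?_⟩
  rw [hm.irreducible_iff_roots_eq_zero_of_degree_le_three (by omega) (by omega)]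
  rw [Multiset.eq_zero_iff_forall_notMem]
  intro r hr'
  rw [mem_roots hm.ne_zero] at hr'
  apply hr r
  have h := hr'
  rw [IsRoot.def] at h
  simpa using h

theorem swap_aux (M N : Type) [Field M] [CharZero M] [Field N] [Algebra M N] [IsAlgClosed N]
    [Normal M N] {K₀ : Type} [Field K₀] [CharZero K₀] (j : K₀ →+* M) (p : K₀[X]) (hpm : p.Monic)
    (s : Finset M) (b c : M) (hp : p.map j = (X ^ 2 + C b * X + C c) * ∏ y ∈ s, (X - C y))
    (hr : ∀ r : M, r ^ 2 + b * r + c ≠ 0) : HasSwap p := by
  obtain ⟨hqm, hqi⟩ := irr_quad hr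
  obtain ⟨α, hα⟩ := IsAlgClosed.exists_aeval_eq_zero N (X ^ 2 + C b * X + C c : M[X]) (by
    intro h0
    exact hqi.not_isUnit (isUnit_iff_degree_eq_zero.2 h0))
  have hα' : α ^ 2 + algebraMap M N b * α + algebraMap M N c = 0 := by
    simpa using hα
  obtain ⟨β, hβe⟩ : ∃ β : N, β = - algebraMap M N b - α := ⟨_, rfl⟩
  have hβ' : β ^ 2 + algebraMap M N b * β + algebraMap M N c = 0 := by
    rw [hβe]
    linear_combination hα'
  have hβ : aeval β (X ^ 2 + C b * X + C c : M[X]) = 0 := by simpa using hβ'
  have hαβ : α ≠ β := by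
    intro h
    rw [hβe] at h
    apply hr (-b / 2)
    apply (algebraMap M N).injective
    have h2 : algebraMap M N (-b / 2) = α := by
      rw [map_div₀, map_neg, map_ofNat]
      have : (2 : N) ≠ 0 := by
        have h3 : (2 : N) = algebraMap M N 2 := by rw [map_ofNat]
        rw [h3]
        exact (_root_.map_ne_zero _).2 two_ne_zero
      field_simp
      linear_combination -h
    rw [map_add, map_add, map_mul, map_pow, h2, map_zero]
    exact hα'
  have hconj : IsConjRoot M β α := by
    rw [IsConjRoot, ← minpoly.eq_of_irreducible_of_monic hqi hα hqm,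
      ← minpoly.eq_of_irreducible_of_monic hqi hβ hqm]
  obtain ⟨τ, hτ⟩ := isConjRoot_iff_exists_algEquiv.1 hconj
  have hτβ : τ β = α := by
    rw [hβe, map_sub, map_neg, AlgEquiv.commutes, hτ, hβe]
    ring
  letI : Algebra K₀ N := ((algebraMap M N).comp j).toAlgebra
  let E := SeparableClosure K₀
  haveI : CharZero E := charZero_of_injective_ringHom (algebraMap K₀ E).injective
  let ι : E →ₐ[K₀] N := IsAlgClosed.lift
  letI : Algebra E N := ι.toRingHom.toAlgebra
  haveI : IsScalarTower K₀ E N := IsScalarTower.of_algebraMap_eq fun x => (ι.commutes x).symm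
  let τ' : N ≃ₐ[K₀] N := AlgEquiv.ofRingEquiv (f := τ.toRingEquiv) fun x => by
    change τ (algebraMap M N (j x)) = algebraMap M N (j x)
    exact τ.commutes _
  have hτ' : ∀ x, τ' x = τ x := fun x => rfl
  let σ : E ≃ₐ[K₀] E := τ'.restrictNormal E
  have hσ : ∀ x : E, algebraMap E N (σ x) = τ (algebraMap E N x) := by
    intro x
    rw [← hτ']
    exact AlgEquiv.restrictNormal_commutes τ' E x
  have hinj : Function.Injective (algebraMap E N) := (algebraMap E N).injective
  -- the roots
  have hroot : ∀ x : E, aeval x p = 0 ↔ ((algebraMap E N x) ^ 2 + algebraMap M N b * algebraMap E N x +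
      algebraMap M N c) * ∏ y ∈ s, (algebraMap E N x - algebraMap M N y) = 0 := by
    intro x
    rw [← map_eq_zero_iff _ hinj, ← aeval_algebraMap_apply]
    have h3 : aeval (algebraMap E N x) p = aeval (algebraMap E N x) (p.map j) := by
      rw [aeval_def, aeval_def, eval₂_map]
      rfl
    rw [h3, hp, map_mul, map_prod]
    simp only [map_add, map_mul, map_pow, aeval_X, aeval_C, map_sub]
  have hall : ∀ γ : N, γ ^ 2 + algebraMap M N b * γ + algebraMap M N c = 0 →
      ∃ x : E, algebraMap E N x = γ ∧ aeval x p = 0 := by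
    intro γ hγ
    have h3 : aeval γ p = 0 := by
      have h4 : aeval γ p = aeval γ (p.map j) := by
        rw [aeval_def, aeval_def, eval₂_map]
        rfl
      rw [h4, hp, map_mul]
      simp only [map_add, map_mul, map_pow, aeval_X, aeval_C, hγ, zero_mul]
    have h5 := (IsAlgClosed.splits (p.map (algebraMap K₀ E))).eq_prod_roots
    rw [(hpm.map (algebraMap K₀ E)).leadingCoeff, C_1, one_mul] at h5
    have h6 : (aeval γ) (p.map (algebraMap K₀ E)) = 0 := by
      rw [aeval_map_algebraMap]
      exact h3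
    rw [h5, map_multiset_prod, Multiset.map_map, Multiset.prod_eq_zero_iff, Multiset.mem_map] at h6
    obtain ⟨x, hx, hx0⟩ := h6
    refine ⟨x, ?_, ?_⟩
    · simp only [Function.comp_apply, map_sub, aeval_X, aeval_C] at hx0
      exact (sub_eq_zero.1 hx0).symm
    · rw [mem_roots (hpm.map (algebraMap K₀ E)).ne_zero, IsRoot.def, eval_map_algebraMap] at hx
      exact hx
  obtain ⟨x, hx, hx0⟩ := hall α hα'
  obtain ⟨y, hy, hy0⟩ := hall β hβ'
  refine ⟨σ, x, y, ?_, hx0, hy0, ?_, ?_, ?_⟩
  · rintro rfl
    exact hαβ (hx.symm.trans hy)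
  · apply hinj
    rw [hσ, hx, hy, hτ]
  · apply hinj
    rw [hσ, hy, hx, hτβ]
  · intro z hz hzx hzy
    apply hinj
    rw [hσ]
    rcases mul_eq_zero.1 ((hroot z).1 hz) with h3 | h3
    · exfalso
      have h4 : (algebraMap E N z - α) * (algebraMap E N z - β) = 0 := by
        rw [hβe]
        linear_combination h3 - hα'
      rcases mul_eq_zero.1 h4 with h5 | h5
      · exact hzx (hinj ((sub_eq_zero.1 h5).trans hx.symm))
      · exact hzy (hinj ((sub_eq_zero.1 h5).trans hy.symm))
    · rw [Finset.prod_eq_zero_iff] at h3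
      obtain ⟨r, -, hr0⟩ := h3
      rw [sub_eq_zero.1 hr0, AlgEquiv.commutes]

end swap

theorem main_aux {A K₀ K κ M N : Type} [CommRing A] [IsDomain A] [Field K₀] [Algebra A K₀]
    [IsFractionRing A K₀] [Field K] [CharZero K] [Field κ] [Algebra K κ] [IsAlgClosed κ] [Field M]
    [Algebra (PowerSeries κ) M] [IsFractionRing (PowerSeries κ) M] [Field N] [Algebra M N]
    [IsAlgClosed N] [Normal M N] (e : A[X]) (ψ : A →+* K[X]) (t : K) (g : K[X]) (hm : e.Monic)
    (hψ : Function.Injective ψ) (h : e.map ((evalRingHom 0).comp ψ) = (X - C t) ^ 2 * g)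
    (hg : g.Separable) (hgt : g.eval t ≠ 0) (h1 : ((e.map ψ).eval (C t)).coeff 1 ≠ 0) :
    HasSwap (e.map (algebraMap A K₀)) := by
  obtain ⟨φ, hφe⟩ : ∃ φ : K[X] →+* PowerSeries κ, ∀ q, φ q = ((q.map (algebraMap K κ) : κ[X]) : PowerSeries κ) :=
    ⟨(Polynomial.coeToPowerSeries.ringHom (R := κ)).comp (mapRingHom (algebraMap K κ)), fun q => rfl⟩
  have hφ : Function.Injective φ := by
    intro x y hxy
    rw [hφe, hφe] at hxy
    apply Polynomial.map_injective (algebraMap K κ) (algebraMap K κ).injective
    exact Polynomial.coe_injective κ hxy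
  have hOM : Function.Injective (algebraMap (PowerSeries κ) M) := IsFractionRing.injective _ _
  haveI : CharZero κ := charZero_of_injective_algebraMap (algebraMap K κ).injective
  haveI : CharZero M := charZero_of_injective_ringHom
    (f := (algebraMap (PowerSeries κ) M).comp (PowerSeries.C (R := κ))) (by
      intro x y hxy
      exact PowerSeries.C_injective (hOM hxy))
  have hAM : Function.Injective ((algebraMap (PowerSeries κ) M).comp (φ.comp ψ)) :=
    hOM.comp (hφ.comp hψ)
  obtain ⟨j, hj⟩ : ∃ j : K₀ →+* M, ∀ a, j (algebraMap A K₀ a) =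
      (algebraMap (PowerSeries κ) M).comp (φ.comp ψ) a :=
    ⟨IsFractionRing.lift hAM, fun a => IsFractionRing.lift_algebraMap hAM a⟩
  haveI : CharZero A := ⟨fun m n hmn => by
    have h2 := congrArg ((algebraMap (PowerSeries κ) M).comp (φ.comp ψ)) hmn
    rw [map_natCast, map_natCast] at h2
    exact Nat.cast_injective h2⟩
  haveI : CharZero K₀ := charZero_of_injective_algebraMap (IsFractionRing.injective A K₀)
  have hcc : ∀ q : K[X], PowerSeries.constantCoeff (φ q) = algebraMap K κ (q.eval 0) := by
    intro q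
    rw [hφe, Polynomial.constantCoeff_coe, coeff_map, coeff_zero_eq_eval_zero]
  have hmap : (e.map (φ.comp ψ)).map PowerSeries.constantCoeff =
      (X - C (algebraMap K κ t)) ^ 2 * g.map (algebraMap K κ) := by
    have h2 : (PowerSeries.constantCoeff (R := κ)).comp (φ.comp ψ) =
        (algebraMap K κ).comp ((evalRingHom 0).comp ψ) := RingHom.ext fun a => hcc (ψ a)
    rw [Polynomial.map_map, h2, ← Polynomial.map_map, h, Polynomial.map_mul, Polynomial.map_pow,
      Polynomial.map_sub, map_X, map_C]
  have hev : (g.map (algebraMap K κ)).eval (algebraMap K κ t) ≠ 0 := by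
    rw [Polynomial.eval_map_apply]
    exact (map_ne_zero_iff _ (algebraMap K κ).injective).2 hgt
  have hco : PowerSeries.coeff 1 ((e.map (φ.comp ψ)).eval (PowerSeries.C (algebraMap K κ t))) ≠ 0 := by
    have h3 : PowerSeries.C (algebraMap K κ t) = φ (C t) := by
      rw [hφe, map_C, Polynomial.coe_C]
    rw [h3, ← Polynomial.map_map, Polynomial.eval_map_apply, hφe, Polynomial.coeff_coe, coeff_map]
    exact (map_ne_zero_iff _ (algebraMap K κ).injective).2 h1
  obtain ⟨s, b, c, hs, hbc⟩ := split1 (e.map (φ.comp ψ)) (hm.map _) (algebraMap K κ t)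
    (g.map (algebraMap K κ)) hmap hg.map hev hco
  have hpj : (e.map (algebraMap A K₀)).map j = (X ^ 2 + C (algebraMap _ M b) * X + C (algebraMap _ M c)) *
      ∏ y ∈ s.image (algebraMap _ M), (X - C y) := by
    have h2 : j.comp (algebraMap A K₀) = (algebraMap (PowerSeries κ) M).comp (φ.comp ψ) :=
      RingHom.ext hj
    rw [Polynomial.map_map, h2, ← Polynomial.map_map, hs, Polynomial.map_mul, Polynomial.map_prod,
      Finset.prod_image hOM.injOn]
    simp only [Polynomial.map_add, Polynomial.map_mul, Polynomial.map_pow, map_X, map_C,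
      Polynomial.map_sub]
  refine swap_aux M N j (e.map (algebraMap A K₀)) (hm.map _) (s.image (algebraMap _ M))
    (algebraMap _ M b) (algebraMap _ M c) hpj ?_
  intro r hr
  have hint : IsIntegral (PowerSeries κ) r := by
    refine ⟨X ^ 2 + C b * X + C c, ?_, ?_⟩
    · have hd : (C b * X + C c : (PowerSeries κ)[X]).degree < 2 := by
        refine lt_of_le_of_lt degree_linear_le ?_
        norm_num
      rw [add_assoc]
      exact monic_X_pow_add hd
    · simpa using hr
  obtain ⟨r', rfl⟩ := IsIntegrallyClosed.isIntegral_iff.1 hint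
  apply hbc r'
  apply hOM
  rw [map_add, map_add, map_mul, map_pow, hr, map_zero]

/-- **JOB SWP.** -/
theorem main : S_SWP := by
  intro A K₀ K _ _ _ _ _ _ _ e ψ t g hm hψ h hg hgt h1
  exact main_aux (κ := AlgebraicClosure K) (M := FractionRing (PowerSeries (AlgebraicClosure K)))
    (N := AlgebraicClosure (FractionRing (PowerSeries (AlgebraicClosure K)))) e ψ t g hm hψ h hg hgt h1

end Pool.Agent.Q149.SN.Swp
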