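import Pool.Agent.Q45.SN.Stm
import Pool.Agent.Q45.NE.Iden
import Mathlib.Algebra.TrivSqZeroExt.Basic

/-!
# The generic tangent section is simply tangent (helper149, job TAN of project SN of helper45)
-/

set_option autoImplicit false
set_option linter.all false

open Polynomial
open scoped Classical

namespace Pool.Agent.Q149.SN

open Pool.Agent.Q45.SN Pool.Agent.Q45.NE
open Pool.Agent.Q45.TG (ds)

section der

variable {k : Type} [Field k]

/-- the map with values in the dual numbers -/
noncomputable def th {K : Type} [Field K] (π : k[X][X] →+* K) (z : K) : k[X][X] →+* TrivSqZeroExt K K where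
  toFun P := TrivSqZeroExt.inl (π P) + TrivSqZeroExt.inr (π (ds P) + z * π (derivative P))
  map_one' := by
    have h1 : ds (1 : k[X][X]) = 0 := by
      have := ds_C (1 : k[X])
      rw [C_1, derivative_one, C_0] at this
      exact this
    rw [h1, derivative_one, map_zero, map_one, mul_zero, add_zero]
    refine TrivSqZeroExt.ext ?_ ?_ <;> simp
  map_zero' := by
    have h1 : ds (0 : k[X][X]) = 0 := by
      have := ds_C (0 : k[X])
      rw [C_0, derivative_zero, C_0] at this
      exact this
    rw [h1, derivative_zero, map_zero, mul_zero, add_zero]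
    refine TrivSqZeroExt.ext ?_ ?_ <;> simp
  map_add' p q := by
    rw [map_add, ds_add, derivative_add, map_add, map_add]
    refine TrivSqZeroExt.ext ?_ ?_
    · simp
    · simp only [TrivSqZeroExt.snd_add, TrivSqZeroExt.snd_inl, TrivSqZeroExt.snd_inr]
      ring
  map_mul' p q := by
    rw [map_mul, ds_mul, derivative_mul, map_add, map_add, map_mul, map_mul, map_mul, map_mul]
    refine TrivSqZeroExt.ext ?_ ?_
    · simp
    · simp only [TrivSqZeroExt.snd_add, TrivSqZeroExt.snd_inl, TrivSqZeroExt.snd_inr,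
        TrivSqZeroExt.snd_mul, TrivSqZeroExt.fst_add, TrivSqZeroExt.fst_inl, TrivSqZeroExt.fst_inr,
        smul_eq_mul, MulOpposite.smul_eq_mul_unop, MulOpposite.unop_op]
      ring

theorem th_fst {K : Type} [Field K] (π : k[X][X] →+* K) (z : K) (P : k[X][X]) :
    (th π z P).fst = π P := by
  change (TrivSqZeroExt.inl (π P) + TrivSqZeroExt.inr (π (ds P) + z * π (derivative P)) :
    TrivSqZeroExt K K).fst = _
  simp

theorem th_snd {K : Type} [Field K] (π : k[X][X] →+* K) (z : K) (P : k[X][X]) :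
    (th π z P).snd = π (ds P) + z * π (derivative P) := by
  change (TrivSqZeroExt.inl (π P) + TrivSqZeroExt.inr (π (ds P) + z * π (derivative P)) :
    TrivSqZeroExt K K).snd = _
  simp

/-- lifting to the field of fractions -/
theorem lift_frac {A K : Type} [CommRing A] [IsDomain A] [Field K] [Algebra A K] [IsFractionRing A K]
    (θ : A →+* TrivSqZeroExt K K) (hθ : ∀ x, (θ x).fst = algebraMap A K x) :
    ∃ D : K → K, (∀ x y, D (x + y) = D x + D y) ∧ (∀ x y, D (x * y) = x * D y + y * D x) ∧
      ∀ x, D (algebraMap A K x) = (θ x).snd := by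
  have hinj : Function.Injective (algebraMap A K) := IsFractionRing.injective _ K
  have hu : ∀ y : nonZeroDivisors A, IsUnit (θ y) := by
    intro y
    rw [TrivSqZeroExt.isUnit_iff_isUnit_fst, hθ, isUnit_iff_ne_zero]
    exact (map_ne_zero_iff _ hinj).2 (nonZeroDivisors.ne_zero y.2)
  obtain ⟨Θ, hΘ⟩ : ∃ Θ : K →+* TrivSqZeroExt K K, ∀ x, Θ (algebraMap A K x) = θ x :=
    ⟨IsLocalization.lift hu, fun x => IsLocalization.lift_eq hu x⟩
  let Φ : K →+* K :=
    { toFun := fun x => (Θ x).fst
      map_one' := by rw [map_one]; rfl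
      map_zero' := by rw [map_zero]; rfl
      map_add' := fun x y => by rw [map_add]; rfl
      map_mul' := fun x y => by rw [map_mul]; rfl }
  have hΦ : Φ = RingHom.id K := by
    apply IsLocalization.ringHom_ext (nonZeroDivisors A)
    ext x
    change (Θ (algebraMap A K x)).fst = algebraMap A K x
    rw [hΘ, hθ]
  have hfst : ∀ x, (Θ x).fst = x := fun x => DFunLike.congr_fun hΦ x
  refine ⟨fun x => (Θ x).snd, ?_, ?_, ?_⟩
  · intro x y
    change (Θ (x + y)).snd = _
    rw [map_add]
    rfl
  · intro x y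
    change (Θ (x * y)).snd = x * (Θ y).snd + y * (Θ x).snd
    rw [map_mul, TrivSqZeroExt.snd_mul, hfst, hfst]
    simp only [smul_eq_mul, MulOpposite.smul_eq_mul_unop, MulOpposite.unop_op]
    ring
  · intro x
    change (Θ (algebraMap A K x)).snd = _
    rw [hΘ]

/-- **the derivation** -/
theorem exists_der [CharZero k] {F : k[X][X]} (hF : F.Monic) (hirr : Irreducible F)
    (hn : 0 < F.natDegree) : ∃ (K : Type) (_ : Field K) (π : k[X][X] →+* K) (D : K → K),
    (∀ x y, D (x + y) = D x + D y) ∧ (∀ x y, D (x * y) = x * D y + y * D x) ∧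
    π F = 0 ∧ π (derivative F) ≠ 0 ∧
    ∀ P, D (π P) = π (ds P) + D (π X) * π (derivative P) := by
  haveI hdom : IsDomain (AdjoinRoot F) := by
    have h5 : Prime F := hirr.prime
    exact Ideal.Quotient.isDomain_iff_prime _ |>.2 ((Ideal.span_singleton_prime h5.ne_zero).2 h5)
  have hinj : Function.Injective (algebraMap (AdjoinRoot F) (FractionRing (AdjoinRoot F))) :=
    IsFractionRing.injective _ _
  obtain ⟨π, hπ⟩ : ∃ π : k[X][X] →+* FractionRing (AdjoinRoot F),
      ∀ P, π P = algebraMap (AdjoinRoot F) (FractionRing (AdjoinRoot F)) (AdjoinRoot.mk F P) :=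
    ⟨(algebraMap (AdjoinRoot F) (FractionRing (AdjoinRoot F))).comp (AdjoinRoot.mk F), fun _ => rfl⟩
  have hπF : π F = 0 := by rw [hπ, AdjoinRoot.mk_self, map_zero]
  have hπ' : π (derivative F) ≠ 0 := by
    rw [hπ]
    refine (map_ne_zero_iff _ hinj).2 ?_
    refine AdjoinRoot.mk_ne_zero_of_natDegree_lt hF ?_ ?_
    · intro h1
      have h2 := natDegree_eq_zero_of_derivative_eq_zero h1
      omega
    · exact natDegree_derivative_lt hn.ne'
  obtain ⟨z, hz⟩ : ∃ z, z * π (derivative F) = - π (ds F) :=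
    ⟨- π (ds F) / π (derivative F), div_mul_cancel₀ _ hπ'⟩
  have hthF : th π z F = 0 := by
    refine TrivSqZeroExt.ext ?_ ?_
    · rw [th_fst, hπF]
      rfl
    · rw [th_snd, hz, add_neg_cancel]
      rfl
  obtain ⟨θ₁, hθ₁⟩ : ∃ θ₁ : AdjoinRoot F →+* TrivSqZeroExt (FractionRing (AdjoinRoot F))
      (FractionRing (AdjoinRoot F)), ∀ P, θ₁ (AdjoinRoot.mk F P) = th π z P :=
    ⟨Ideal.Quotient.lift (Ideal.span {F}) (th π z) (by
      intro a ha
      obtain ⟨q, rfl⟩ := Ideal.mem_span_singleton'.1 ha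
      rw [map_mul, hthF, mul_zero]), fun P => rfl⟩
  obtain ⟨D, hD1, hD2, hD3⟩ := lift_frac θ₁ (by
    intro x
    obtain ⟨P, rfl⟩ := AdjoinRoot.mk_surjective x
    rw [hθ₁, th_fst, hπ])
  have hD : ∀ P, D (π P) = π (ds P) + z * π (derivative P) := by
    intro P
    rw [hπ P, hD3, hθ₁, th_snd]
  refine ⟨_, inferInstance, π, D, hD1, hD2, hπF, hπ', ?_⟩
  intro P
  have h1 : D (π X) = z := by
    rw [hD, ds_X, derivative_X, map_zero, map_one, mul_one, zero_add]
  rw [h1, hD]

end der

section pol

variable {K : Type} [Field K]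

theorem D_one {D : K → K} (h2 : ∀ x y, D (x * y) = x * D y + y * D x) : D 1 = 0 := by
  have h := h2 1 1
  rw [mul_one, one_mul] at h
  linear_combination -h

theorem D_zero {D : K → K} (h1 : ∀ x y, D (x + y) = D x + D y) : D 0 = 0 := by
  have h := h1 0 0
  rw [add_zero] at h
  linear_combination -h

theorem D_nat {D : K → K} (h1 : ∀ x y, D (x + y) = D x + D y)
    (h2 : ∀ x y, D (x * y) = x * D y + y * D x) (n : ℕ) : D (n : K) = 0 := by
  induction n with
  | zero => rw [Nat.cast_zero, D_zero h1]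
  | succ n ih => rw [Nat.cast_succ, h1, ih, D_one h2, add_zero]

/-- the coefficientwise derivation -/
theorem exists_E {D : K → K} (h1 : ∀ x y, D (x + y) = D x + D y)
    (h2 : ∀ x y, D (x * y) = x * D y + y * D x) :
    ∃ E : K[X] → K[X], (∀ p q, E (p + q) = E p + E q) ∧ (∀ p q, E (p * q) = p * E q + q * E p) ∧
      (∀ p n, (E p).coeff n = D (p.coeff n)) := by
  let Dd : Derivation ℤ K K := Derivation.mk' (AddMonoidHom.mk' D h1).toIntLinearMap h2
  letI : Differential K := ⟨Dd⟩
  refine ⟨Differential.mapCoeffs, fun p q => map_add _ p q, fun p q => ?_, fun p n => ?_⟩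
  · rw [Derivation.leibniz]
    rfl
  · rw [Differential.coeff_mapCoeffs]
    rfl

variable {D : K → K} (h1 : ∀ x y, D (x + y) = D x + D y)
    (h2 : ∀ x y, D (x * y) = x * D y + y * D x) {E : K[X] → K[X]}
    (e1 : ∀ p q, E (p + q) = E p + E q) (e2 : ∀ p q, E (p * q) = p * E q + q * E p)
    (e3 : ∀ p n, (E p).coeff n = D (p.coeff n))

include h1 e3 in
theorem E_C (a : K) : E (C a) = C (D a) := by
  ext n
  rw [e3, coeff_C, coeff_C]
  split_ifs
  · rfl
  · exact D_zero h1

include h1 h2 e3 in
theorem E_X : E X = 0 := by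
  ext n
  rw [e3, coeff_X, coeff_zero]
  split_ifs
  · exact D_one h2
  · exact D_zero h1

include h1 h2 e1 e2 e3 in
theorem D_eval (p : K[X]) (x : K) : D (p.eval x) = (E p).eval x + (derivative p).eval x * D x := by
  induction p using Polynomial.induction_on with
  | C a => rw [E_C h1 e3, eval_C, eval_C, derivative_C, eval_zero, zero_mul, add_zero]
  | add p q hp hq =>
    rw [eval_add, h1, hp, hq, e1, eval_add, derivative_add, eval_add]
    ring
  | monomial n a ih =>
    rw [pow_succ, ← mul_assoc]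
    generalize C a * X ^ n = Q at ih ⊢
    rw [eval_mul, h2, ih, e2, E_X h1 h2 e3, derivative_mul, derivative_X]
    simp only [eval_add, eval_mul, eval_X, eval_zero, eval_one, mul_zero, mul_one, zero_add]
    ring

include h1 h2 e1 e2 e3 in
/-- nonzero polynomials with constant coefficients have no nonconstant roots -/
theorem no_root [CharZero K] {x : K} (hx : D x ≠ 0) : ∀ (n : ℕ) (p : K[X]), p.natDegree ≤ n → E p = 0 →
    p.eval x = 0 → p = 0 := by
  intro n
  induction n with
  | zero =>
    intro p hp hE hr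
    rw [Polynomial.eq_C_of_natDegree_le_zero hp] at hr ⊢
    rw [eval_C] at hr
    rw [hr, C_0]
  | succ n ih =>
    intro p hp hE hr
    have h3 : (derivative p).eval x = 0 := by
      have h4 := D_eval h1 h2 e1 e2 e3 p x
      rw [hr, hE, D_zero h1, eval_zero, zero_add] at h4
      exact (mul_eq_zero.1 h4.symm).resolve_right hx
    have h5 : E (derivative p) = 0 := by
      ext m
      rw [e3, coeff_derivative, h2, coeff_zero]
      have h6 : D (p.coeff (m + 1)) = 0 := by rw [← e3, hE, coeff_zero]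
      have h7 : D ((m : K) + 1) = 0 := by
        have := D_nat h1 h2 (m + 1)
        rwa [Nat.cast_succ] at this
      rw [h6, h7, mul_zero, mul_zero, add_zero]
    have h8 : derivative p = 0 := by
      refine ih _ ?_ h5 h3
      have := natDegree_derivative_le p
      omega
    have h9 := natDegree_eq_zero_of_derivative_eq_zero h8
    rw [Polynomial.eq_C_of_natDegree_le_zero (le_of_eq h9)] at hr ⊢
    rw [eval_C] at hr
    rw [hr, C_0]

end pol

section ev

variable {k K : Type} [Field k] [Field K]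

/-- the value at the section -/
noncomputable def ev (κ : k →+* K) (G : k[X]) (v0 v1 : K) : k[X][X] →+* K[X] :=
  (evalRingHom (sct κ G v0 v1)).comp (mapRingHom (mapRingHom κ))

theorem ev_eq (κ : k →+* K) (G : k[X]) (v0 v1 : K) (P : k[X][X]) :
    ev κ G v0 v1 P = vct κ P G v0 v1 := rfl

theorem ev_C (κ : k →+* K) (G : k[X]) (v0 v1 : K) (a : k[X]) :
    ev κ G v0 v1 (C a) = a.map κ := by
  rw [ev, RingHom.comp_apply, coe_mapRingHom, map_C, coe_evalRingHom, eval_C]
  rfl

theorem ev_X (κ : k →+* K) (G : k[X]) (v0 v1 : K) :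
    ev κ G v0 v1 X = sct κ G v0 v1 := by
  rw [ev, RingHom.comp_apply, coe_mapRingHom, map_X, coe_evalRingHom, eval_X]

theorem ev_der (κ : k →+* K) (G : k[X]) (v0 v1 : K) (P : k[X][X]) :
    derivative (ev κ G v0 v1 P) = ev κ G v0 v1 (ds P) + ev κ G v0 v1 (derivative P) *
      derivative (sct κ G v0 v1) := by
  induction P using Polynomial.induction_on with
  | C a => rw [ds_C, derivative_C, ev_C, ev_C, map_zero, zero_mul, add_zero, derivative_map]
  | add p q hp hq =>
    rw [map_add, derivative_add, hp, hq, ds_add, derivative_add, map_add, map_add]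
    ring
  | monomial n a ih =>
    rw [pow_succ, ← mul_assoc]
    generalize C a * X ^ n = Q at ih ⊢
    rw [map_mul, derivative_mul, ih, ds_mul, ds_X, derivative_mul, derivative_X,
      map_add, map_add, map_mul, map_mul, map_mul, map_mul, map_zero, map_one, ev_X]
    ring

theorem ev_E {D : K → K} (h1 : ∀ x y, D (x + y) = D x + D y) {E : K[X] → K[X]}
    (e1 : ∀ p q, E (p + q) = E p + E q) (e2 : ∀ p q, E (p * q) = p * E q + q * E p)
    (e3 : ∀ p n, (E p).coeff n = D (p.coeff n)) (κ : k →+* K) (hκ : ∀ a, D (κ a) = 0) (G : k[X])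
    (v0 v1 : K) (P : k[X][X]) :
    E (ev κ G v0 v1 P) = ev κ G v0 v1 (derivative P) * E (sct κ G v0 v1) := by
  induction P using Polynomial.induction_on with
  | C a =>
    rw [derivative_C, ev_C, map_zero, zero_mul]
    ext n
    rw [e3, coeff_map, hκ, coeff_zero]
  | add p q hp hq =>
    rw [map_add, e1, hp, hq, derivative_add, map_add]
    ring
  | monomial n a ih =>
    rw [pow_succ, ← mul_assoc]
    generalize C a * X ^ n = Q at ih ⊢
    rw [map_mul, e2, ih, derivative_mul, derivative_X, map_add, map_mul, map_mul, map_one, ev_X]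
    ring

theorem ev_eval (π : k[X][X] →+* K) (κ : k →+* K) (hκ : ∀ a, κ a = π (C (C a))) (G : k[X])
    (v0 v1 : K) (hs : (sct κ G v0 v1).eval (π (C X)) = π X) (P : k[X][X]) :
    (ev κ G v0 v1 P).eval (π (C X)) = π P := by
  have h : (evalRingHom (π (C X))).comp (ev κ G v0 v1) = π := by
    apply Polynomial.ringHom_ext
    · intro a
      rw [RingHom.comp_apply, ev_C, coe_evalRingHom]
      induction a using Polynomial.induction_on with
      | C b => rw [map_C, eval_C, hκ]
      | add p q hp hq => rw [Polynomial.map_add, eval_add, hp, hq, C_add, map_add]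
      | monomial n b ih =>
        rw [pow_succ, ← mul_assoc, Polynomial.map_mul, eval_mul, ih, map_X, eval_X, ← map_mul, ← C_mul]
    · rw [RingHom.comp_apply, ev_X, coe_evalRingHom, hs]
  exact DFunLike.congr_fun h P

theorem sct_deg (κ : k →+* K) {G : k[X]} (hG : 2 ≤ G.natDegree) (v0 v1 : K) :
    (sct κ G v0 v1).natDegree = G.natDegree := by
  unfold sct
  rw [add_assoc, natDegree_add_eq_left_of_natDegree_lt, natDegree_map_eq_of_injective κ.injective]
  rw [natDegree_map_eq_of_injective κ.injective]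
  exact lt_of_le_of_lt natDegree_linear_le (by omega)

theorem ev_ne (κ : k →+* K) {F : k[X][X]} {G : k[X]} (hF : F.Monic) (hd : 2 ≤ F.natDegree)
    (hG : 2 ≤ G.natDegree)
    (hdeg : ∀ i < F.natDegree, (F.coeff i).natDegree < (F.natDegree - i) * G.natDegree) (v0 v1 : K) :
    ev κ G v0 v1 F ≠ 0 := by
  have hFm : (F.map (mapRingHom κ)).Monic := hF.map _
  have hFd : (F.map (mapRingHom κ)).natDegree = F.natDegree := hF.natDegree_map _
  have h := (eval_lead hFm (by rw [hFd]; omega) (x := sct κ G v0 v1) (by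
    intro i hi
    rw [hFd] at hi ⊢
    rw [coeff_map, coe_mapRingHom, natDegree_map_eq_of_injective κ.injective, sct_deg κ hG]
    exact hdeg i hi)).1
  intro h0
  have h0' : (F.map (mapRingHom κ)).eval (sct κ G v0 v1) = 0 := h0
  rw [h0', natDegree_zero, hFd, sct_deg κ hG] at h
  have : 0 < F.natDegree * G.natDegree := Nat.mul_pos (by omega) (by omega)
  omega

end ev

/-- **JOB TAN.** -/
theorem main : S_TAN := by
  intro k _ _ F G hF hirr hd hsm hG hdeg
  obtain ⟨K, _, π, D, h1, h2, hπF, hπ', hD⟩ := exists_der hF hirr (by omega)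
  obtain ⟨E, e1, e2, e3⟩ := exists_E h1 h2
  obtain ⟨κ, hκ⟩ : ∃ κ : k →+* K, ∀ a, κ a = π (C (C a)) := ⟨π.comp (C.comp C), fun _ => rfl⟩
  haveI : CharZero K := charZero_of_injective_ringHom κ.injective
  have hκD : ∀ a, D (κ a) = 0 := by
    intro a
    rw [hκ, hD, ds_C, derivative_C, C_0, map_zero, derivative_C, map_zero, mul_zero, add_zero]
  obtain ⟨t, ht⟩ : ∃ t, t = π (C X) := ⟨_, rfl⟩
  have hDt : D t = 1 := by
    rw [ht, hD, ds_C, derivative_X, C_1, map_one, derivative_C, map_zero, mul_zero, add_zero]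
  obtain ⟨y, hy⟩ : ∃ y, y = π X - (G.map κ).eval t := ⟨_, rfl⟩
  obtain ⟨v1, hv1⟩ : ∃ v1, v1 = D y := ⟨_, rfl⟩
  obtain ⟨v0, hv0⟩ : ∃ v0, v0 = y - t * v1 := ⟨_, rfl⟩
  have hEmap : ∀ p : k[X], E (p.map κ) = 0 := by
    intro p
    ext n
    rw [e3, coeff_map, hκD, coeff_zero]
  have hs : (sct κ G v0 v1).eval t = π X := by
    rw [sct, eval_add, eval_add, eval_mul, eval_C, eval_C, eval_X, hv0, hy]
    ring
  have hsE : ∀ P, (ev κ G v0 v1 P).eval t = π P := by
    intro P
    rw [ht] at hs ⊢
    exact ev_eval π κ hκ G v0 v1 hs P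
  have hDw : (derivative (sct κ G v0 v1)).eval t = D (π X) := by
    have h3 : D (π X) = D y + D ((G.map κ).eval t) := by
      rw [← h1, hy, sub_add_cancel]
    rw [h3, ← hv1, D_eval h1 h2 e1 e2 e3, hEmap, hDt, sct, derivative_add, derivative_add, derivative_C_mul,
      derivative_X, derivative_C]
    simp only [eval_add, eval_mul, eval_C, eval_one, eval_zero, mul_one, add_zero, zero_add]
    ring
  obtain ⟨e, he⟩ : ∃ e, e = ev κ G v0 v1 F := ⟨_, rfl⟩
  have he0 : e ≠ 0 := by
    rw [he]
    exact ev_ne κ hF hd hG hdeg v0 v1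
  have het : e.eval t = 0 := by rw [he, hsE, hπF]
  have het' : (derivative e).eval t = 0 := by
    rw [he, ev_der, eval_add, eval_mul, hsE, hsE, hDw]
    have h3 := hD F
    rw [hπF, D_zero h1] at h3
    rw [h3]
    ring
  have hEs : E (sct κ G v0 v1) = C (D v1) * (X - C t) := by
    have h3 : D v0 = - (t * D v1) := by
      have h4 : D y = D v0 + D (t * v1) := by
        rw [← h1, hv0, sub_add_cancel]
      rw [h2, hDt, ← hv1] at h4
      linear_combination -h4
    rw [sct, e1, e1, hEmap, e2, E_C h1 e3, E_C h1 e3, E_X h1 h2 e3, h3, C_neg, C_mul]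
    ring
  have hEe : E e = ev κ G v0 v1 (derivative F) * (C (D v1) * (X - C t)) := by
    rw [he, ev_E h1 e1 e2 e3 κ hκD, hEs]
  have hDv1 : D v1 ≠ 0 := by
    intro h0
    apply he0
    refine no_root h1 h2 e1 e2 e3 (x := t) (by rw [hDt]; exact one_ne_zero) e.natDegree e le_rfl ?_ het
    rw [hEe, h0, C_0, zero_mul, mul_zero]
  have hdvd : (X - C t) ^ 2 ∣ e := by
    rw [← le_rootMultiplicity_iff he0]
    exact (one_lt_rootMultiplicity_iff_isRoot he0).2 ⟨het, het'⟩
  obtain ⟨g, hg⟩ := hdvd
  have hgt : g.eval t ≠ 0 := by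
    intro h0
    obtain ⟨r, hr⟩ := dvd_iff_isRoot.2 h0
    have hEq : E (X - C t) = -1 := by
      rw [sub_eq_add_neg, e1, E_X h1 h2 e3, ← C_neg, E_C h1 e3]
      have h3 : D (-t) = -1 := by
        have h4 := h1 t (-t)
        rw [add_neg_cancel, D_zero h1, hDt] at h4
        linear_combination -h4
      rw [h3, C_neg, C_1, zero_add]
    have h3 : E e = (X - C t) * ((X - C t) * ((X - C t) * E r - 3 * r)) := by
      rw [hg, hr, e2, e2, pow_two, e2, hEq]
      ring
    rw [hEe] at h3
    have h4 : (X - C t) * (ev κ G v0 v1 (derivative F) * C (D v1)) =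
        (X - C t) * ((X - C t) * ((X - C t) * E r - 3 * r)) := by
      rw [← h3]
      ring
    have h5 := mul_left_cancel₀ (X_sub_C_ne_zero t) h4
    have h6 := congrArg (eval t) h5
    rw [eval_mul, eval_mul, eval_sub, eval_X, eval_C, eval_C, sub_self, zero_mul, hsE] at h6
    exact mul_ne_zero hπ' hDv1 h6
  have hg0 : g ≠ 0 := by
    rintro rfl
    exact hgt eval_zero
  have hsq : Squarefree g := by
    rw [squarefree_iff_irreducible_sq_not_dvd_of_ne_zero hg0]
    intro q hq hqq
    have hqe : q * q ∣ e := hqq.trans (Dvd.intro_left _ hg.symm)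
    obtain ⟨r, hr⟩ := hqe
    have hprime : Prime q := hq.prime
    have h3 : q ∣ ev κ G v0 v1 (derivative F) * (C (D v1) * (X - C t)) := by
      rw [← hEe, hr, e2, e2]
      exact ⟨q * E r + r * (E q + E q), by ring⟩
    have h4 : q ∣ ev κ G v0 v1 (derivative F) := by
      rcases hprime.dvd_or_dvd h3 with h4 | h4
      · exact h4
      · exfalso
        rcases hprime.dvd_or_dvd h4 with h5 | h5
        · exact hq.not_isUnit (isUnit_of_dvd_unit h5 (isUnit_C.2 (isUnit_iff_ne_zero.2 hDv1)))
        · have h6 : Associated q (X - C t) := hq.associated_of_dvd (irreducible_X_sub_C t) h5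
          have h7 : (X - C t) ∣ g := (h6.symm.dvd.trans (dvd_mul_right q q)).trans hqq
          exact hgt (dvd_iff_isRoot.1 h7)
    have h5 : q ∣ derivative e := by
      rw [hr, derivative_mul, derivative_mul]
      exact ⟨(derivative q + derivative q) * r + q * derivative r, by ring⟩
    have h6 : q ∣ ev κ G v0 v1 (ds F) := by
      rw [he, ev_der] at h5
      exact (dvd_add_left (h4.mul_right _)).1 h5
    have h7 : q ∣ e := ⟨q * r, by rw [hr]; ring⟩
    obtain ⟨a, b, c, habc⟩ := hsm
    have h8 := congrArg (ev κ G v0 v1) habc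
    rw [map_add, map_add, map_mul, map_mul, map_mul, map_one, ← he] at h8
    apply hq.not_isUnit
    rw [isUnit_iff_dvd_one, ← h8]
    exact dvd_add (dvd_add (h7.mul_left _) (h4.mul_left _)) (h6.mul_left _)
  refine ⟨K, inferInstance, κ, t, v0, v1, g, ?_, ?_, ?_, hgt, ?_⟩
  · intro p hp h0
    rw [← eval_map] at h0
    have h3 := no_root h1 h2 e1 e2 e3 hDv1 _ (p.map κ) le_rfl (hEmap p) h0
    exact hp ((Polynomial.map_eq_zero κ).1 h3)
  · rw [← ev_eq, ← he]
    exact hg
  · exact PerfectField.separable_iff_squarefree.2 hsq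
  · rw [← ev_eq, hsE]
    exact hπ'

end Pool.Agent.Q149.SN
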